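import Pool.Agent.N236.UR.Stm5
import Pool.Agent.N491.UB.DICV
import Pool.Agent.N578.UB.DICK

/-!
# Project UR (helper236): exact values of the differences of Dickson polynomials (helper322)
-/

set_option autoImplicit false

open Polynomial

namespace Pool.Agent.N322.UR

open Pool.Agent.N236.UB Pool.Agent.N236.UR
open Pool.Agent.N491.UB (ev0 ev1 ev2 caseA caseB v_coprime v_add_eq v_nat v_sub)

variable {L : Type} [Field L] {v : AbsoluteValue L ℝ}

/-- the lower bound -/
theorem lower (hk : S_DICK) {p q e l : ℕ} {α x y : L} (hloc : Loc v p q e) (hp : p.Prime)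
    (hl : l.Prime) (hpl : ¬ p ∣ l) (hcop : Nat.Coprime l (q ^ 2 - 1)) (hxy : x ≠ y) :
    0 < max (max (v x) (v y)) (Real.sqrt (v α)) ∧
    max (max (v x) (v y)) (Real.sqrt (v α)) ^ l * v (y - x) ≤
      max (max (v x) (v y)) (Real.sqrt (v α)) *
        v ((dickson 1 α l).eval y - (dickson 1 α l).eval x) := by
  have hna := hloc.1
  rcases le_or_gt (v α) (max (v x ^ 2) (v y ^ 2)) with hle | hgt
  · rcases le_total (v y) (v x) with h | h
    · have hx0 : x ≠ 0 := by
        rintro rfl
        rw [v.map_zero] at h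
        exact hxy ((v.eq_zero.mp (le_antisymm h (v.nonneg _))).symm)
      have hα : v α ≤ v x ^ 2 := hle.trans (max_le le_rfl (pow_le_pow_left₀ (v.nonneg _) h 2))
      have h1 : Real.sqrt (v α) ≤ v x := Real.sqrt_le_left (v.nonneg x) |>.2 hα
      rw [max_eq_left h, max_eq_left h1]
      exact ⟨v.pos hx0, caseB hk hloc hp hl hpl hcop hx0 h hα⟩
    · have hy0 : y ≠ 0 := by
        rintro rfl
        rw [v.map_zero] at h
        exact hxy (v.eq_zero.mp (le_antisymm h (v.nonneg _)))
      have hα : v α ≤ v y ^ 2 := hle.trans (max_le (pow_le_pow_left₀ (v.nonneg _) h 2) le_rfl)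
      have h1 : Real.sqrt (v α) ≤ v y := Real.sqrt_le_left (v.nonneg y) |>.2 hα
      have hB := caseB hk hloc hp hl hpl hcop hy0 h hα
      rw [v.map_sub x y, v.map_sub ((dickson 1 α l).eval x)] at hB
      rw [max_eq_right h, max_eq_left h1]
      exact ⟨v.pos hy0, hB⟩
  · -- the parameter dominates
    have hα0 : 0 < v α := lt_of_le_of_lt (le_max_of_le_left (by positivity)) hgt
    set s : ℝ := Real.sqrt (v α) with hsdef
    have hs : 0 < s := Real.sqrt_pos.mpr hα0
    have hs2 : v α = s ^ 2 := (Real.sq_sqrt hα0.le).symm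
    have hxs : v x < s := by
      have : v x ^ 2 < s ^ 2 := by rw [← hs2]; exact (le_max_left _ _).trans_lt hgt
      exact lt_of_pow_lt_pow_left₀ 2 hs.le this
    have hys : v y < s := by
      have : v y ^ 2 < s ^ 2 := by rw [← hs2]; exact (le_max_right _ _).trans_lt hgt
      exact lt_of_pow_lt_pow_left₀ 2 hs.le this
    -- `l` is odd
    have hodd : l ≠ 2 := by
      rintro rfl
      obtain ⟨-, -, hvp, O, k, _, _, red, hO, hred, hsurj, hcard⟩ := hloc
      have hvl : v ((2 : ℕ) : L) = 1 := v_coprime hna hp hvp hpl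
      have h2k : ((2 : ℕ) : k) ≠ 0 := by
        intro h
        have h1 : red ((2 : ℕ) : O) = 0 := by rw [map_natCast]; exact h
        rw [hred] at h1
        have h2 : (((2 : ℕ) : O) : L) = ((2 : ℕ) : L) := rfl
        rw [h2, hvl] at h1
        exact lt_irrefl _ h1
      have hq : q % 2 = 1 := by
        by_contra h
        have h0 : Fintype.card k % 2 = 0 := by rw [hcard]; omega
        have h1 := FiniteField.even_card_iff_char_two.mpr h0
        apply h2k
        have h3 := ringChar.Nat.cast_ringChar (R := k)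
        rwa [h1] at h3
      have h4 : 2 ∣ q ^ 2 - 1 := by
        obtain ⟨r, hr⟩ : ∃ r, q = 2 * r + 1 := ⟨q / 2, by omega⟩
        rw [hr]
        refine ⟨2 * r ^ 2 + 2 * r, ?_⟩
        have : (2 * r + 1) ^ 2 = 2 * (2 * r ^ 2 + 2 * r) + 1 := by ring
        omega
      have h5 := Nat.Coprime.eq_one_of_dvd hcop h4
      omega
    obtain ⟨m, hm⟩ : ∃ m, l = 2 * m + 1 := hl.odd_of_ne_two hodd
    have hvl : v (l : L) = 1 := v_coprime hna hp hloc.2.2.1 hpl
    obtain ⟨-, -, -, h4⟩ := caseA hna (x := x) (y := y) (μ := max (v x) (v y)) hs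
      (le_max_left _ _) (le_max_right _ _) (le_max_of_le_left (v.nonneg _)) (max_lt hxs hys) hs2
      hxy m
    have hmain : v (((2 * m + 1 : ℕ) : L) * (-α) ^ m * (y - x)) = s ^ (2 * m) * v (y - x) := by
      rw [v.map_mul, v.map_mul, v.map_pow, v.map_neg, ← hm, hvl, one_mul, hs2, ← pow_mul]
    have h5 : v ((dickson 1 α (2 * m + 1)).eval y - (dickson 1 α (2 * m + 1)).eval x) =
        s ^ (2 * m) * v (y - x) := by
      have h6 := v_add_eq hna (x := ((2 * m + 1 : ℕ) : L) * (-α) ^ m * (y - x))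
        (y := (dickson 1 α (2 * m + 1)).eval y - (dickson 1 α (2 * m + 1)).eval x -
          ((2 * m + 1 : ℕ) : L) * (-α) ^ m * (y - x)) (by rw [hmain]; exact h4)
      rw [add_sub_cancel, hmain] at h6
      exact h6
    rw [max_eq_right (max_lt hxs hys).le]
    refine ⟨hs, ?_⟩
    rw [hm, h5]
    apply le_of_eq
    ring

/-- the upper bound -/
theorem upper (hna : ∀ x y : L, v (x + y) ≤ max (v x) (v y)) {a A B : L} {s : ℝ} (hs : 0 < s)
    (hA : v A ≤ s) (hB : v B ≤ s) (ha : v a ≤ s ^ 2) (n : ℕ) :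
    v ((dickson 1 a n).eval A) ≤ s ^ n ∧
    v ((dickson 1 a n).eval A - (dickson 1 a n).eval B) * s ≤ s ^ n * v (A - B) := by
  induction n using Nat.twoStepInduction with
  | zero =>
    rw [ev0, ev0, sub_self, v.map_zero, pow_zero, zero_mul, one_mul]
    exact ⟨by exact_mod_cast v_nat hna 2, v.nonneg _⟩
  | one =>
    rw [ev1, ev1, pow_one, mul_comm s]
    exact ⟨hA, le_refl _⟩
  | more n ih1 ih2 =>
    obtain ⟨i1, i2⟩ := ih1
    obtain ⟨j1, j2⟩ := ih2
    rw [ev2, ev2]
    set A0 := (dickson 1 a n).eval A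
    set A1 := (dickson 1 a (n + 1)).eval A
    set B0 := (dickson 1 a n).eval B
    set B1 := (dickson 1 a (n + 1)).eval B
    have hd := v.nonneg (A - B)
    constructor
    · refine (v_sub hna _ _).trans (max_le ?_ ?_)
      · rw [v.map_mul]
        calc v A * v A1 ≤ s * s ^ (n + 1) := mul_le_mul hA j1 (v.nonneg _) hs.le
          _ = s ^ (n + 2) := by ring
      · rw [v.map_mul]
        calc v a * v A0 ≤ s ^ 2 * s ^ n := mul_le_mul ha i1 (v.nonneg _) (by positivity)
          _ = s ^ (n + 2) := by ring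
    · have e : A * A1 - a * A0 - (B * B1 - a * B0) =
          ((A - B) * A1 + B * (A1 - B1)) - a * (A0 - B0) := by ring
      have k1 : v ((A - B) * A1) ≤ s ^ (n + 2) * v (A - B) / s := by
        rw [le_div_iff₀ hs, v.map_mul]
        calc v (A - B) * v A1 * s ≤ v (A - B) * s ^ (n + 1) * s := by gcongr
          _ = s ^ (n + 2) * v (A - B) := by ring
      have k2 : v (B * (A1 - B1)) ≤ s ^ (n + 2) * v (A - B) / s := by
        rw [le_div_iff₀ hs, v.map_mul]
        calc v B * v (A1 - B1) * s = v B * (v (A1 - B1) * s) := by ring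
          _ ≤ s * (s ^ (n + 1) * v (A - B)) :=
              mul_le_mul hB j2 (mul_nonneg (v.nonneg _) hs.le) hs.le
          _ = s ^ (n + 2) * v (A - B) := by ring
      have k3 : v (a * (A0 - B0)) ≤ s ^ (n + 2) * v (A - B) / s := by
        rw [le_div_iff₀ hs, v.map_mul]
        calc v a * v (A0 - B0) * s = v a * (v (A0 - B0) * s) := by ring
          _ ≤ s ^ 2 * (s ^ n * v (A - B)) :=
              mul_le_mul ha i2 (mul_nonneg (v.nonneg _) hs.le) (by positivity)
          _ = s ^ (n + 2) * v (A - B) := by ring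
      rw [← le_div_iff₀ hs, e]
      exact (v_sub hna _ _).trans (max_le ((hna _ _).trans (max_le k1 k2)) k3)

theorem t_dv1 : S_DV1 := by
  intro L _ v p q e l hloc hp hl hpl hcop a A B
  by_cases hAB : A = B
  · rw [hAB, sub_self, sub_self, v.map_zero, zero_mul]
  obtain ⟨hs, hlow⟩ := lower Pool.Agent.N578.UB.t_dick (α := a) hloc hp hl hpl hcop hAB
  obtain ⟨s, hsd⟩ : ∃ s : ℝ, s = max (max (v A) (v B)) (Real.sqrt (v a)) := ⟨_, rfl⟩
  rw [← hsd] at hs hlow ⊢
  have hA : v A ≤ s := by
    rw [hsd]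
    exact (le_max_left _ _).trans (le_max_left _ _)
  have hB : v B ≤ s := by
    rw [hsd]
    exact (le_max_right _ _).trans (le_max_left _ _)
  have ha : v a ≤ s ^ 2 := by
    have h1 : Real.sqrt (v a) ≤ s := by
      rw [hsd]
      exact le_max_right _ _
    have h2 := Real.sq_sqrt (v.nonneg a)
    have h3 := pow_le_pow_left₀ (Real.sqrt_nonneg (v a)) h1 2
    rwa [h2] at h3
  have hup := (upper hloc.1 hs hA hB ha l).2
  rw [v.map_sub B A, v.map_sub ((dickson 1 a l).eval B)] at hlow
  have hl1 : s ^ l = s * s ^ (l - 1) := by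
    rw [← pow_succ', Nat.sub_add_cancel hl.one_le]
  rw [hl1] at hup hlow
  have h1 : s * v ((dickson 1 a l).eval A - (dickson 1 a l).eval B) =
      s * (v (A - B) * s ^ (l - 1)) := by
    apply le_antisymm
    · linarith
    · linarith
  exact mul_left_cancel₀ hs.ne' h1

end Pool.Agent.N322.UR
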